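import Pool.Agent.H676Z.CR.Defs

/-!
# Orientation tests and proper crossings
-/

namespace Pool.Agent.H676Z.CR

open Real

/-- The determinant of two vectors. -/
def det (u v : Pt) : ℝ := u.1 * v.2 - u.2 * v.1

theorem Ccw.rot {u v t : Pt} (h : Ccw u v t) : Ccw v t u := by
  obtain ⟨α, β, γ, r, s, q, h1, h2, h3, hr, hs, hq, hu, hv, ht⟩ := h
  refine ⟨β, γ, α + 2 * π, s, q, r, h2, h3, by linarith, hs, hq, hr, hv, ht, ?_⟩
  rw [hu, cos_add_two_pi, sin_add_two_pi]

theorem polar (u : Pt) (hu : u ≠ 0) : ∃ r θ : ℝ, 0 < r ∧ -π < θ ∧ θ ≤ π ∧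
    u = (r * cos θ, r * sin θ) := by
  let z : ℂ := ⟨u.1, u.2⟩
  have hz : z ≠ 0 := by
    intro h
    apply hu
    have h1 : z.re = 0 := by rw [h]; rfl
    have h2 : z.im = 0 := by rw [h]; rfl
    exact Prod.ext h1 h2
  refine ⟨‖z‖, z.arg, norm_pos_iff.2 hz, Complex.neg_pi_lt_arg z, Complex.arg_le_pi z, ?_⟩
  have h1 := Complex.norm_mul_cos_arg z
  have h2 := Complex.norm_mul_sin_arg z
  exact Prod.ext h1.symm h2.symm

theorem polar_after {β : ℝ} {t : Pt} (h : 0 < det (cos β, sin β) t) :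
    ∃ q γ : ℝ, 0 < q ∧ β < γ ∧ γ < β + π ∧ t = (q * cos γ, q * sin γ) := by
  let t' : Pt := (t.1 * cos β + t.2 * sin β, -t.1 * sin β + t.2 * cos β)
  have h2 : 0 < t'.2 := by
    simp only [det] at h
    simp only [t']
    linarith
  have h0 : t' ≠ 0 := by
    intro h3
    rw [h3] at h2
    simp at h2
  obtain ⟨q, θ, hq, h3, h4, h5⟩ := polar t' h0
  have h6 : t'.1 = q * cos θ := by rw [h5]
  have h7 : t'.2 = q * sin θ := by rw [h5]
  have h8 : 0 < sin θ := by
    rw [h7] at h2
    exact (mul_pos_iff_of_pos_left hq).1 h2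
  have h9 : 0 < θ := by
    by_contra h9
    have := sin_nonpos_of_nonpos_of_neg_pi_le (not_lt.1 h9) h3.le
    linarith
  have h10 : θ < π := by
    rcases h4.lt_or_eq with h | h
    · exact h
    · rw [h, sin_pi] at h8
      exact absurd h8 (lt_irrefl _)
  refine ⟨q, β + θ, hq, by linarith, by linarith, ?_⟩
  have hs := sin_sq_add_cos_sq β
  simp only [t'] at h6 h7
  refine Prod.ext ?_ ?_
  · simp only [cos_add]
    linear_combination (-t.1) * hs + cos β * h6 - sin β * h7
  · simp only [sin_add]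
    linear_combination (-t.2) * hs + sin β * h6 + cos β * h7

theorem ccw_of_det {u v t : Pt} (h1 : 0 < det u v) (h2 : 0 < det v t) : Ccw u v t := by
  have hu : u ≠ 0 := by
    intro h
    rw [h] at h1
    simp [det] at h1
  obtain ⟨r, α, hr, -, -, hu'⟩ := polar u hu
  have h3 : 0 < det (cos α, sin α) v := by
    have : det u v = r * det (cos α, sin α) v := by rw [hu']; simp only [det]; ring
    rw [this] at h1
    exact (mul_pos_iff_of_pos_left hr).1 h1
  obtain ⟨s, β, hs, h4, h5, hv⟩ := polar_after h3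
  have h6 : 0 < det (cos β, sin β) t := by
    have : det v t = s * det (cos β, sin β) t := by rw [hv]; simp only [det]; ring
    rw [this] at h2
    exact (mul_pos_iff_of_pos_left hs).1 h2
  obtain ⟨q, γ, hq, h7, h8, ht⟩ := polar_after h6
  exact ⟨α, β, γ, r, s, q, h4, h7, by linarith, hr, hs, hq, hu', hv, ht⟩

/-- The counterclockwise order of three directions in terms of determinants. -/
theorem ccw_iff {u v t : Pt} : Ccw u v t ↔ (0 < det u v ∧ 0 < det v t) ∨
    (0 < det v t ∧ 0 < det t u) ∨ (0 < det t u ∧ 0 < det u v) := by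
  constructor
  · rintro ⟨α, β, γ, r, s, q, h1, h2, h3, hr, hs, hq, hu, hv, ht⟩
    have e1 : det u v = r * s * sin (β - α) := by
      rw [hu, hv, sin_sub]; simp only [det]; ring
    have e2 : det v t = s * q * sin (γ - β) := by
      rw [hv, ht, sin_sub]; simp only [det]; ring
    have e3 : det t u = q * r * sin (α + 2 * π - γ) := by
      rw [ht, hu, sin_sub, cos_add_two_pi, sin_add_two_pi]; simp only [det]; ring
    have k1 : β - α < π → 0 < det u v := fun h => by
      rw [e1]; exact mul_pos (mul_pos hr hs) (sin_pos_of_pos_of_lt_pi (by linarith) h)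
    have k2 : γ - β < π → 0 < det v t := fun h => by
      rw [e2]; exact mul_pos (mul_pos hs hq) (sin_pos_of_pos_of_lt_pi (by linarith) h)
    have k3 : α + 2 * π - γ < π → 0 < det t u := fun h => by
      rw [e3]; exact mul_pos (mul_pos hq hr) (sin_pos_of_pos_of_lt_pi (by linarith) h)
    by_cases a1 : β - α < π
    · by_cases a2 : γ - β < π
      · exact Or.inl ⟨k1 a1, k2 a2⟩
      · exact Or.inr (Or.inr ⟨k3 (by linarith), k1 a1⟩)
    · exact Or.inr (Or.inl ⟨k2 (by linarith), k3 (by linarith)⟩)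
  · rintro (⟨h1, h2⟩ | ⟨h1, h2⟩ | ⟨h1, h2⟩)
    · exact ccw_of_det h1 h2
    · exact (ccw_of_det h1 h2).rot.rot
    · exact (ccw_of_det h1 h2).rot

/-- `A A'` is one of the two segments of the path `a, w, b`. -/
def Piece (a w b A A' : Pt) : Prop := (A = a ∧ A' = w) ∨ (A = w ∧ A' = b)

theorem overlap_of {a w b x : Pt} (h1 : a ∉ segment ℝ w b) (h2 : b ∉ segment ℝ a w)
    (hx1 : x ∈ segment ℝ a w) (hx2 : x ∈ segment ℝ w b) : x = w := by
  by_contra hne
  rw [segment_symm] at hx1
  rw [segment_eq_image'] at hx1 hx2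
  obtain ⟨s, ⟨hs0, hs1⟩, hs⟩ := hx1
  obtain ⟨t, ⟨ht0, ht1⟩, ht⟩ := hx2
  simp only at hs ht
  have hs' : s ≠ 0 := by
    rintro rfl
    apply hne
    rw [← hs]; simp
  have ht' : t ≠ 0 := by
    rintro rfl
    apply hne
    rw [← ht]; simp
  have hsp : 0 < s := lt_of_le_of_ne hs0 (Ne.symm hs')
  have htp : 0 < t := lt_of_le_of_ne ht0 (Ne.symm ht')
  have e : s • (a - w) = t • (b - w) := by
    have := hs.trans ht.symm
    exact add_left_cancel this
  rcases le_total s t with h | h
  · apply h2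
    rw [segment_symm, segment_eq_image']
    refine ⟨s / t, ⟨by positivity, (div_le_one htp).2 h⟩, ?_⟩
    simp only
    have : (s / t) • (a - w) = b - w := by
      rw [div_eq_inv_mul, mul_smul, e, smul_smul, inv_mul_cancel₀ ht', one_smul]
    rw [this]; simp
  · apply h1
    rw [segment_eq_image']
    refine ⟨t / s, ⟨by positivity, (div_le_one hsp).2 h⟩, ?_⟩
    simp only
    have : (t / s) • (b - w) = a - w := by
      rw [div_eq_inv_mul, mul_smul, ← e, smul_smul, inv_mul_cancel₀ hs', one_smul]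
    rw [this]; simp

/-- The two branches at an inner point of a segment of the path. -/
theorem branches {a w b A A' x : Pt} (h1 : a ∉ segment ℝ w b) (h2 : b ∉ segment ℝ a w)
    (hp : Piece a w b A A') (hx : x ∈ openSegment ℝ A A') :
    ∃ l m : ℝ, 0 < l ∧ 0 < m ∧ back a w x = -(l • (A' - A)) ∧ fwd w b x = m • (A' - A) := by
  have hne : A ≠ A' := by
    rcases hp with ⟨rfl, rfl⟩ | ⟨rfl, rfl⟩
    · intro h; apply h1; rw [h]; exact left_mem_segment _ _ _
    · intro h; apply h2; rw [← h]; exact right_mem_segment _ _ _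
  have hx' := openSegment_subset_segment ℝ _ _ hx
  have hxA : x ≠ A := by
    intro h; rw [h] at hx; exact hne (left_mem_openSegment_iff.1 hx)
  have hxA' : x ≠ A' := by
    intro h; rw [h] at hx; exact hne (right_mem_openSegment_iff.1 hx)
  rw [openSegment_eq_image'] at hx
  obtain ⟨s, ⟨hs0, hs1⟩, hs⟩ := hx
  simp only at hs
  have e1 : A - x = -(s • (A' - A)) := by rw [← hs]; abel
  have e2 : A' - x = (1 - s) • (A' - A) := by rw [← hs, sub_smul, one_smul]; abel
  refine ⟨s, 1 - s, hs0, by linarith, ?_, ?_⟩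
  · rcases hp with ⟨rfl, rfl⟩ | ⟨rfl, rfl⟩
    · unfold back; rw [if_pos hx', e1]
    · unfold back
      rw [if_neg (fun h => hxA (overlap_of h1 h2 h hx')), e1]
  · rcases hp with ⟨rfl, rfl⟩ | ⟨rfl, rfl⟩
    · unfold fwd
      rw [if_neg (fun h => hxA' (overlap_of h1 h2 hx' h)), e2]
    · unfold fwd; rw [if_pos hx', e2]

/-- Two segments which are not parallel cross properly in a common inner point. -/
theorem proper_of_open {a w b c u d A A' C C' x : Pt} (h1 : a ∉ segment ℝ w b)
    (h2 : b ∉ segment ℝ a w) (h3 : c ∉ segment ℝ u d) (h4 : d ∉ segment ℝ c u)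
    (hp : Piece a w b A A') (hq : Piece c u d C C') (hx : x ∈ openSegment ℝ A A')
    (hy : x ∈ openSegment ℝ C C') (hd : det (A' - A) (C' - C) ≠ 0) : Proper a w b c u d x := by
  obtain ⟨l, m, hl, hm, e1, e2⟩ := branches h1 h2 hp hx
  obtain ⟨l', m', hl', hm', e3, e4⟩ := branches h3 h4 hq hy
  unfold Proper
  rw [e1, e2, e3, e4]
  generalize A' - A = U at *
  generalize C' - C = T at *
  have k : ∀ i j : ℝ, det (i • U) (j • T) = i * j * det U T := fun i j => by
    simp only [det, Prod.smul_fst, Prod.smul_snd, smul_eq_mul]; ring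
  have k' : ∀ i j : ℝ, det (j • T) (i • U) = -(i * j * det U T) := fun i j => by
    simp only [det, Prod.smul_fst, Prod.smul_snd, smul_eq_mul]; ring
  rw [← neg_smul, ← neg_smul]
  rcases lt_or_gt_of_ne hd with h | h
  · right
    refine ⟨ccw_of_det ?_ ?_, ccw_of_det ?_ ?_⟩
    · rw [k]; nlinarith [mul_pos hl hm']
    · rw [k']; nlinarith [mul_pos hm hm']
    · rw [k]; nlinarith [mul_pos hm hl']
    · rw [k']; nlinarith [mul_pos hl hl']
  · left
    refine ⟨ccw_of_det ?_ ?_, ccw_of_det ?_ ?_⟩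
    · rw [k]; nlinarith [mul_pos hl hl']
    · rw [k']; nlinarith [mul_pos hm hl']
    · rw [k]; nlinarith [mul_pos hm hm']
    · rw [k']; nlinarith [mul_pos hl hm']

end Pool.Agent.H676Z.CR
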