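import Mathlib

/-!
# Drawings of graphs whose edges are polygonal paths with two segments
-/

namespace Pool.Agent.H676Z.CR

/-- Points (and vectors) of the plane. -/
abbrev Pt : Type := ℝ × ℝ

/-- The polygonal path from `a` to `b` which consists of the two segments `a w` and `w b`. -/
def arc (a w b : Pt) : Set Pt := segment ℝ a w ∪ segment ℝ w b

/-- The nonzero vectors `u`, `v`, `t` point in three different directions, which are met in this
order when one turns counterclockwise. -/
def Ccw (u v t : Pt) : Prop :=
  ∃ α β γ r s q : ℝ, α < β ∧ β < γ ∧ γ < α + 2 * Real.pi ∧ 0 < r ∧ 0 < s ∧ 0 < q ∧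
    u = (r * Real.cos α, r * Real.sin α) ∧ v = (s * Real.cos β, s * Real.sin β) ∧
    t = (q * Real.cos γ, q * Real.sin γ)

open Classical in
/-- The direction in which the path `a, w, b` leaves its point `x` towards its start `a`. -/
noncomputable def back (a w x : Pt) : Pt := if x ∈ segment ℝ a w then a - x else w - x

open Classical in
/-- The direction in which the path `a, w, b` leaves its point `x` towards its end `b`. -/
noncomputable def fwd (w b x : Pt) : Pt := if x ∈ segment ℝ w b then b - x else w - x

/-- The paths `a, w, b` and `c, u, d` cross properly at their common point `x`: the two branches of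
the first path and the two branches of the second path alternate around `x`. -/
def Proper (a w b c u d x : Pt) : Prop :=
  (Ccw (back a w x) (back c u x) (fwd w b x) ∧ Ccw (fwd w b x) (fwd u d x) (back a w x)) ∨
  (Ccw (back a w x) (fwd u d x) (fwd w b x) ∧ Ccw (fwd w b x) (back c u x) (back a w x))

section

variable {V E : Type} (VS : Set V) (ES : Set E) (s t : E → V) (p : V → Pt) (w : E → Pt)

/-- The path of the edge `e` with endpoints `s e`, `t e`: the vertices are placed by `p`, and `w e`
is the common point of the two segments of `e`. -/
def path (e : E) : Set Pt := arc (p (s e)) (w e) (p (t e))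

/-- The point `x` lies on the paths of `e` and `f` and is not the point of a common endpoint. -/
def Meet (e f : E) (x : Pt) : Prop :=
  x ∈ path s t p w e ∧ x ∈ path s t p w f ∧
    ¬ ∃ v, (v = s e ∨ v = t e) ∧ (v = s f ∨ v = t f) ∧ x = p v

/-- `2`-polygonal drawings of the graph with vertex set `VS`, edge set `ES` and endpoint maps
`s`, `t`: the vertices are distinct points, the two segments of an edge are nondegenerate and do
not overlap, no edge passes through a vertex other than its endpoints, and two edges meet only in
common endpoints and in proper crossings. -/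
structure IsDrawing : Prop where
  inj : ∀ u ∈ VS, ∀ v ∈ VS, p u = p v → u = v
  simple : ∀ e ∈ ES, p (s e) ∉ segment ℝ (w e) (p (t e)) ∧ p (t e) ∉ segment ℝ (p (s e)) (w e)
  avoid : ∀ e ∈ ES, ∀ v ∈ VS, v ≠ s e → v ≠ t e → p v ∉ path s t p w e
  proper : ∀ e ∈ ES, ∀ f ∈ ES, e ≠ f → ∀ x, Meet s t p w e f x →
    Proper (p (s e)) (w e) (p (t e)) (p (s f)) (w f) (p (t f)) x

/-- The crossings of a drawing: an unordered pair of different edges together with a point where
they cross. -/
def crossings : Set (Sym2 E × Pt) :=
  {y | ∃ e ∈ ES, ∃ f ∈ ES, e ≠ f ∧ y.1 = s(e, f) ∧ Meet s t p w e f y.2}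

/-- The graph has a `2`-polygonal drawing with at most `k` (in particular finitely many)
crossings. -/
def Drawable (k : ℕ) : Prop :=
  ∃ (p : V → Pt) (w : E → Pt), IsDrawing VS ES s t p w ∧ (crossings ES s t p w).encard ≤ k

end

/-- An instance `(V, E, k)`: the list of the vertices (natural numbers), the list of the edges
(pairs of vertices) and the bound `k`. -/
abbrev Inst : Type := List ℕ × List (ℕ × ℕ) × ℕ

/-- `(V, E)` is a finite simple graph: every edge joins two different vertices, and no edge is
listed twice (`(u, v)` and `(v, u)` denote the same edge). -/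
def IsInst (G : Inst) : Prop :=
  (∀ e ∈ G.2.1, e.1 ∈ G.1 ∧ e.2 ∈ G.1 ∧ e.1 ≠ e.2) ∧
    G.2.1.Pairwise fun e f => e ≠ f ∧ e ≠ (f.2, f.1)

/-- The decision problem `CR₂`: the graph `(V, E)` has a `2`-polygonal drawing with at most `k`
crossings. -/
def CR2 (G : Inst) : Prop :=
  Drawable {v | v ∈ G.1} {e | e ∈ G.2.1} Prod.fst Prod.snd G.2.2

end Pool.Agent.H676Z.CR
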