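import Pool.Agent.H676Z.CR.Basic

/-!
# The graph of a sign matrix

One copy consists of a heavy wheel (hub `o`, rim `r 0, …, r (R - 1)`, every edge replaced by `W`
paths of length two) and light edges. The graph consists of two copies which share the vertex `z`.
-/

namespace Pool.Agent.H676Z.CR

/-- The parameters: number of points, number of lines, width of the bundles, signs. -/
structure Par where
  /-- number of points -/
  n : ℕ
  /-- number of lines -/
  L : ℕ
  /-- number of paths in a bundle -/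
  W : ℕ
  /-- the point `i` is above the line `κ` -/
  sg : ℕ → ℕ → Bool

/-- The number of rim vertices. -/
def Par.R (P : Par) : ℕ := 6 * P.L + 10

/-- Vertices of one copy; `m true s u` is a midpoint on the spoke to `r s`, and `m false s u` a
midpoint between `r s` and its successor. -/
inductive V1 : Type
  | z : V1
  | o : V1
  | r (s : ℕ) : V1
  | p (i : ℕ) : V1
  | m (h : Bool) (s u : ℕ) : V1
  deriving DecidableEq

/-- Light edges. -/
inductive Lt : Type
  | E (κ : ℕ) : Lt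
  | PL (i κ : ℕ) : Lt
  | PR (i κ : ℕ) : Lt
  | VD (i : ℕ) : Lt
  | VU (i : ℕ) : Lt
  | f : Lt
  | g : Lt
  | z1 : Lt
  | z2 : Lt
  | z3 : Lt
  deriving DecidableEq

/-- Groups of light edges. -/
inductive Grp : Type
  | E (κ : ℕ) : Grp
  | P (i κ : ℕ) : Grp
  | V (i : ℕ) : Grp
  | f : Grp
  | g : Grp
  | z : Grp
  deriving DecidableEq

/-- Edges of one copy. -/
inductive E1 : Type
  | l (e : Lt) : E1
  | h (hh : Bool) (s u : ℕ) (side : Bool) : E1
  deriving DecidableEq

/-- The group of a light edge. -/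
def Lt.grp : Lt → Grp
  | .E κ => .E κ
  | .PL i κ => .P i κ
  | .PR i κ => .P i κ
  | .VD i => .V i
  | .VU i => .V i
  | .f => .f
  | .g => .g
  | .z1 => .z
  | .z2 => .z
  | .z3 => .z

/-- Directed form of the forced pairs. -/
def Fd : Grp → Grp → Prop
  | .E κ, .E κ' => κ < κ'
  | .E κ, .P _ κ' => κ ≠ κ'
  | .P i κ, .P i' κ' => i ≠ i' ∧ κ < κ'
  | .V _, .E _ => True
  | .V i, .P i' _ => i ≠ i'
  | .f, .E _ => True
  | .f, .P _ _ => True
  | .g, .E _ => True
  | .g, .P _ _ => True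
  | .f, .g => True
  | .z, .E _ => True
  | .z, .P _ _ => True
  | .z, .f => True
  | .z, .g => True
  | _, _ => False

/-- The pairs of groups which have to cross. -/
def Forced (A B : Grp) : Prop := Fd A B ∨ Fd B A

namespace Par

variable (P : Par)

/-- The marker on the right side. -/
def qR (κ : ℕ) (s : Bool) : ℕ := 3 * κ + (if s = true then 1 else 3)

/-- The marker on the left side. -/
def qL (κ : ℕ) (s : Bool) : ℕ := 3 * P.L + 3 * κ + (if s = true then 7 else 5)

/-- The start of a light edge. -/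
def lsrc : Lt → V1
  | .E κ => .r (3 * P.L + 3 * κ + 6)
  | .PL i κ => .r (P.qL κ (P.sg i κ))
  | .PR i _ => .p i
  | .VD i => .p i
  | .VU i => .p i
  | .f => .r (3 * P.L + 2)
  | .g => .r (3 * P.L + 4)
  | .z1 => .z
  | .z2 => .z
  | .z3 => .z

/-- The end of a light edge. -/
def ltgt : Lt → V1
  | .E κ => .r (3 * κ + 2)
  | .PL i _ => .p i
  | .PR i κ => .r (qR κ (P.sg i κ))
  | .VD _ => .r (3 * P.L + 1)
  | .VU _ => .r 0
  | .f => .r (6 * P.L + 6)
  | .g => .r (6 * P.L + 8)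
  | .z1 => .r (3 * P.L + 3)
  | .z2 => .r (6 * P.L + 9)
  | .z3 => .r (6 * P.L + 5)

/-- The start of an edge. -/
def src1 : E1 → V1
  | .l e => P.lsrc e
  | .h true _ _ false => .o
  | .h false s _ false => .r s
  | .h hh s u true => .m hh s u

/-- The end of an edge. -/
def tgt1 : E1 → V1
  | .l e => P.ltgt e
  | .h hh s u false => .m hh s u
  | .h true s _ true => .r s
  | .h false s _ true => .r ((s + 1) % P.R)

/-- The vertices which are used. -/
def vok : V1 → Prop
  | .z => True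
  | .o => True
  | .r s => s < P.R
  | .p i => i < P.n
  | .m _ s u => s < P.R ∧ u < P.W

/-- The light edges which are used. -/
def lok : Lt → Prop
  | .E κ => κ < P.L
  | .PL i κ => i < P.n ∧ κ < P.L
  | .PR i κ => i < P.n ∧ κ < P.L
  | .VD i => i < P.n
  | .VU i => i < P.n
  | _ => True

/-- The groups which are used. -/
def gok : Grp → Prop
  | .E κ => κ < P.L
  | .P i κ => i < P.n ∧ κ < P.L
  | .V i => i < P.n
  | _ => True

/-- The edges which are used. -/
def eok : E1 → Prop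
  | .l e => P.lok e
  | .h _ s u _ => s < P.R ∧ u < P.W

/-- The forced pairs of one copy. -/
def FS : Set (Grp × Grp) := {a | P.gok a.1 ∧ P.gok a.2 ∧ Fd a.1 a.2}

end Par

/-- The vertex `v` of the copy `c`; the vertex `z` is shared. -/
def emb (c : Bool) (v : V1) : Bool × V1 := if v = V1.z then (false, V1.z) else (c, v)

namespace Par

variable (P : Par)

/-- The vertices of the graph. -/
def VS : Set (Bool × V1) := {a | ∃ c v, P.vok v ∧ a = emb c v}

/-- The edges of the graph. -/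
def ES : Set (Bool × E1) := {a | P.eok a.2}

/-- The start of an edge. -/
def src (a : Bool × E1) : Bool × V1 := emb a.1 (P.src1 a.2)

/-- The end of an edge. -/
def tgt (a : Bool × E1) : Bool × V1 := emb a.1 (P.tgt1 a.2)

/-- Exactly the forced pairs cross, each at one point. -/
structure Tight (p : Bool × V1 → Pt) (w : Bool × E1 → Pt) : Prop where
  only : ∀ e ∈ P.ES, ∀ f ∈ P.ES, e ≠ f → ∀ x, Meet P.src P.tgt p w e f x →
    ∃ c a b, e = (c, E1.l a) ∧ f = (c, E1.l b) ∧ Forced a.grp b.grp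
  uniq : ∀ c a b a' b', P.lok a → P.lok b → P.lok a' → P.lok b' → a.grp = a'.grp →
    b.grp = b'.grp → Forced a.grp b.grp → ∀ x x',
    Meet P.src P.tgt p w (c, E1.l a) (c, E1.l b) x →
    Meet P.src P.tgt p w (c, E1.l a') (c, E1.l b') x' → x = x'

/-- The standing assumptions: two fences. -/
structure Good : Prop where
  two : 2 ≤ P.L
  one : 1 ≤ P.W
  top : ∀ i, P.sg i 0 = true
  bot : ∀ i, P.sg i (P.L - 1) = false

end Par

/-! ### The light part of one copy -/

/-- The path of a light edge. -/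
def larc (P : Par) (q : V1 → Pt) (ω : Lt → Pt) (e : Lt) : Set Pt :=
  arc (q (P.lsrc e)) (ω e) (q (P.ltgt e))

/-- The point `x` is a common endpoint. -/
def Com (P : Par) (q : V1 → Pt) (e f : Lt) (x : Pt) : Prop :=
  ∃ v, (v = P.lsrc e ∨ v = P.ltgt e) ∧ (v = P.lsrc f ∨ v = P.ltgt f) ∧ x = q v

/-- The vertices `z`, `r s`, `p i`. -/
def V1.light : V1 → Prop
  | .o => False
  | .m _ _ _ => False
  | _ => True

/-- The light edges of one copy are drawn so that exactly the forced pairs cross. -/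
structure Loc (P : Par) (q : V1 → Pt) (ω : Lt → Pt) : Prop where
  inj : ∀ u v, P.vok u → P.vok v → u.light → v.light → q u = q v → u = v
  simple : ∀ e, P.lok e → q (P.lsrc e) ∉ segment ℝ (ω e) (q (P.ltgt e)) ∧
    q (P.ltgt e) ∉ segment ℝ (q (P.lsrc e)) (ω e)
  avoid : ∀ e, P.lok e → ∀ v, P.vok v → v.light → v ≠ P.lsrc e → v ≠ P.ltgt e →
    q v ∉ larc P q ω e
  only : ∀ e f, P.lok e → P.lok f → e ≠ f → ∀ x ∈ larc P q ω e, x ∈ larc P q ω f →
    Com P q e f x ∨ Forced e.grp f.grp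
  uniq : ∀ a b a' b', P.lok a → P.lok b → P.lok a' → P.lok b' → a.grp = a'.grp →
    b.grp = b'.grp → Forced a.grp b.grp → ∀ x x', x ∈ larc P q ω a → x ∈ larc P q ω b →
    x' ∈ larc P q ω a' → x' ∈ larc P q ω b' → x = x'

/-! ### Wheels -/

/-- A plane wheel: hub `O`, rim points `r s`, rim paths `Pm s` from `r s` to its successor and
spokes `Q s`. -/
structure Wheel (R : ℕ) (O : Pt) (r : ℕ → Pt) (Pm Q : ℕ → Set Pt) : Prop where
  three : 3 ≤ R
  inj : ∀ s < R, ∀ t < R, r s = r t → s = t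
  rim : ∀ s < R, ∀ x ∈ Pm s, JoinedIn (Pm s) (r s) x
  rim0 : ∀ s < R, r s ∈ Pm s
  rim1 : ∀ s < R, r ((s + 1) % R) ∈ Pm s
  spoke : ∀ s < R, JoinedIn (Q s) O (r s)
  spoke' : ∀ s < R, ∀ x ∈ Q s, x ≠ r s → JoinedIn (Q s \ {r s}) O x
  PP : ∀ s < R, ∀ t < R, s ≠ t → ∀ x ∈ Pm s, x ∈ Pm t →
    (x = r s ∧ s = (t + 1) % R) ∨ (x = r t ∧ t = (s + 1) % R)
  QQ : ∀ s < R, ∀ t < R, s ≠ t → ∀ x ∈ Q s, x ∈ Q t → x = O
  QP : ∀ s < R, ∀ t < R, ∀ x ∈ Q s, x ∈ Pm t → x = r s ∧ (s = t ∨ s = (t + 1) % R)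
  cP : ∀ s < R, IsCompact (Pm s)
  cQ : ∀ s < R, IsCompact (Q s)

/-- All the points of a wheel. -/
def wset (R : ℕ) (Pm Q : ℕ → Set Pt) : Set Pt := {x | ∃ s < R, x ∈ Pm s ∨ x ∈ Q s}

/-- One copy, drawn with `z` on the outer face. -/
structure Cfg (P : Par) (q : V1 → Pt) (ω : Lt → Pt) (Pm Q : ℕ → Set Pt) : Prop where
  loc : Loc P q ω
  wheel : Wheel P.R (q V1.o) (fun s => q (V1.r s)) Pm Q
  clean : ∀ e, P.lok e → ∀ x ∈ larc P q ω e, x ∈ wset P.R Pm Q →
    ∃ s, (P.lsrc e = V1.r s ∨ P.ltgt e = V1.r s) ∧ x = q (V1.r s)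
  esc : ∃ Y : Set Pt, (∀ y ∈ Y, JoinedIn Y (q V1.z) y) ∧ ¬ Bornology.IsBounded Y ∧
    ∀ y ∈ Y, y ≠ q V1.z → y ∉ wset P.R Pm Q ∧ ∀ e, P.lok e → y ∉ larc P q ω e

end Pool.Agent.H676Z.CR
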