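import Pool.Agent.H676Z.CR.Basic
import Pool.Agent.H612.PatOf
import Pool.Agent.H625R2.SignM

/-!
# The source problem: sign matrices with lines in the order of their slopes
-/

namespace Pool.Agent.H676Z.CR

open Pool.Agent.NPC Pool.Agent.NPC.ER

/-- Realization by points `(x i, y i)` and lines `y = σ j * x + c j` of decreasing slopes. -/
def OrdReal (n m : ℕ) (g : ℕ → ℕ → Bool) : Prop :=
  ∃ σ c x y : ℕ → ℝ, (∀ j j', j < j' → j' < m → σ j' < σ j) ∧ ∀ i < n, ∀ j < m,
    (g i j = true → σ j * x i + c j < y i) ∧ (g i j = false → y i < σ j * x i + c j)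

/-- Realization by points and arbitrary affine functions. -/
def Sep (n m : ℕ) (g : ℕ → ℕ → Bool) : Prop :=
  ∃ q : ℕ → Pt, ∀ j < m, ∃ a b c : ℝ, ∀ i < n,
    (g i j = true → 0 < a * (q i).1 + b * (q i).2 + c) ∧
    (g i j = false → a * (q i).1 + b * (q i).2 + c < 0)

/-- The entries of a matrix. -/
def ent (M : List (List Bool)) (i j : ℕ) : Bool := (M.getD i []).getD j false

/-- The number of columns of a matrix. -/
def wid (M : List (List Bool)) : ℕ := (M.headD []).length

/-- The slope of a line. -/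
noncomputable def slope (X : ℕ → Fin 3 → ℝ) (n : ℕ) : ℝ := -(X n 1) / X n 2

/-- The list `cl` enumerates the lines of the pattern. -/
def Cols (p : Pat.Pat) (cl : List ℕ) : Prop := ∀ n, n ∈ cl ↔ n < p.length ∧ Pat.kind p n = false

/-- The slopes decrease along `cl`, and the second parent of a line is to the left of the first. -/
structure Ordered (p : Pat.Pat) (cl : List ℕ) (X : ℕ → Fin 3 → ℝ) : Prop where
  left : ∀ n < p.length, Pat.kind p n = false → ∀ a b, Pat.par p n = [a, b] →
    X a 0 * X b 1 - X a 1 * X b 0 < 0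
  sorted : cl.Pairwise fun n m => slope X m < slope X n

/-- The copies of the lines, in the order of decreasing slopes. -/
def ocols (cl : List ℕ) : List (ℕ × ℕ) := cl.flatMap fun n => [(n, 2), (n, 0), (n, 3), (n, 1)]

/-- The matrix of a pattern with ordered columns. -/
def omat (p : Pat.Pat) (cl : List ℕ) : List (List Bool) :=
  (Pat.cps p true).map fun a => (ocols cl).map fun c => Pat.entry p a.1 a.2 c.1 c.2

/-- Abstract part. -/
def S_A1 : Prop :=
  (Poly fun a : Pat.Pat × List ℕ => omat a.1 a.2) ∧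
  ∀ (p : Pat.Pat) (cl : List ℕ), Pat.WF p → Cols p cl →
    ((∃ X, Pat.Exact p X ∧ Pat.Nice p X ∧ Ordered p cl X) →
      OrdReal (omat p cl).length (wid (omat p cl)) (ent (omat p cl))) ∧
    (Sep (omat p cl).length (wid (omat p cl)) (ent (omat p cl)) → ∃ X, Pat.Exact p X)

/-- Concrete part. -/
def S_A2 : Prop :=
  ∃ cl : List Con → List ℕ, Poly cl ∧ ∀ S, Cols (Sgn.patOf S) (cl S) ∧
    (Sat S → ∃ X, Pat.Exact (Sgn.patOf S) X ∧ Pat.Nice (Sgn.patOf S) X ∧
      Ordered (Sgn.patOf S) (cl S) X)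

/-- The source problem is hard. -/
def S_src : Prop :=
  ∃ om : List Con → List (List Bool), Poly om ∧ ∀ S,
    (Sat S → OrdReal (om S).length (wid (om S)) (ent (om S))) ∧
    (Sep (om S).length (wid (om S)) (ent (om S)) → Sat S)

theorem src_of (h1 : S_A1) (h2 : S_A2) : S_src := by
  obtain ⟨cl, hcl, h⟩ := h2
  have k1 : Poly (fun S : List Con => Sgn.patOf S) := Sgn.poly_patOf (S := fun S => S) Poly.id
  have k2 : Poly (fun S : List Con => (Sgn.patOf S, cl S)) := Poly.pair k1 hcl
  have k3 : Poly (fun S : List Con => omat (Sgn.patOf S) (cl S)) :=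
    Poly.comp (g := fun a : Pat.Pat × List ℕ => omat a.1 a.2)
      (f := fun S : List Con => (Sgn.patOf S, cl S)) h1.1 k2
  refine ⟨fun S => omat (Sgn.patOf S) (cl S), k3, fun S => ⟨fun hS => ?_, fun hS => ?_⟩⟩
  · exact (h1.2 _ _ (Sgn.patOf_wf S) (h S).1).1 ((h S).2 hS)
  · exact Sgn.patOf_sound ((h1.2 _ _ (Sgn.patOf_wf S) (h S).1).2 hS)

/-- Membership. -/
def S_mem : Prop := InER (lang fun G : Inst => IsInst G ∧ CR2 G)

end Pool.Agent.H676Z.CR
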