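import Pool.Agent.H676Z.CR.Graph
import Pool.Agent.H676Z.CR.Src

/-!
# The explicit drawing, and the statements of the parts of the proof
-/

namespace Pool.Agent.H676Z.CR

open Pool.Agent.NPC Pool.Agent.NPC.ER

/-! ### Soundness -/

/-- Interleaved connections outside of a wheel meet. -/
def S_inter : Prop :=
  ∀ (R : ℕ) (O : Pt) (r : ℕ → Pt) (Pm Q : ℕ → Set Pt), Wheel R O r Pm Q →
    ∀ a c b d : ℕ, a < c → c < b → b < d → d < R → ∀ A B : Set Pt,
      JoinedIn A (r a) (r b) → JoinedIn B (r c) (r d) → Disjoint A (Q c) → Disjoint A (Q d) →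
      Disjoint B (Q a) → Disjoint B (Q b) → (A ∩ B).Nonempty

/-- The rim separates the hub from a point which sees three rim points from outside. -/
def S_hub : Prop :=
  ∀ (R : ℕ) (O : Pt) (r : ℕ → Pt) (Pm Q : ℕ → Set Pt), Wheel R O r Pm Q →
    ∀ a b c : ℕ, a < b → b < c → c < R → ∀ (z : Pt) (Y A B C : Set Pt),
      JoinedIn Y O z → (∀ s < R, Disjoint Y (Pm s)) →
      JoinedIn A z (r a) → JoinedIn B z (r b) → JoinedIn C z (r c) →
      Disjoint A (Q b) → Disjoint A (Q c) → Disjoint B (Q a) → Disjoint B (Q c) →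
      Disjoint C (Q a) → Disjoint C (Q b) →
      (∀ s < R, ∀ x ∈ A, x ∈ Pm s → x = r a) → (∀ s < R, ∀ x ∈ B, x ∈ Pm s → x = r b) →
      (∀ s < R, ∀ x ∈ C, x ∈ Pm s → x = r c) → False

/-- The path number `u` of a bundle. -/
def bund (P : Par) (p : Bool × V1 → Pt) (w : Bool × E1 → Pt) (c hh : Bool) (s u : ℕ) : Set Pt :=
  path P.src P.tgt p w (c, E1.h hh s u false) ∪ path P.src P.tgt p w (c, E1.h hh s u true)

/-- Paths of the bundles which do not cross form a wheel. -/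
def S_wheel : Prop :=
  ∀ (P : Par) (p : Bool × V1 → Pt) (w : Bool × E1 → Pt), IsDrawing P.VS P.ES P.src P.tgt p w →
    ∀ (c : Bool) (u : Bool → ℕ → ℕ), (∀ hh, ∀ s < P.R, u hh s < P.W) →
      (∀ hh hh' side side', ∀ s < P.R, ∀ s' < P.R,
        E1.h hh s (u hh s) side ≠ E1.h hh' s' (u hh' s') side' → ∀ x,
        ¬ Meet P.src P.tgt p w (c, E1.h hh s (u hh s) side) (c, E1.h hh' s' (u hh' s') side') x) →
      Wheel P.R (p (emb c V1.o)) (fun s => p (emb c (V1.r s)))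
        (fun s => bund P p w c false s (u false s)) (fun s => bund P p w c true s (u true s))

/-- A drawing with few crossings is tight. -/
def S_tight : Prop :=
  ∀ (P : Par) (k : ℕ), P.FS.encard = k → 4 * k < P.W →
    ∀ (p : Bool × V1 → Pt) (w : Bool × E1 → Pt), IsDrawing P.VS P.ES P.src P.tgt p w →
      (crossings P.ES P.src P.tgt p w).encard ≤ (2 * k : ℕ) → P.Tight p w

/-- A tight drawing has few crossings. -/
def S_count : Prop :=
  ∀ (P : Par) (k : ℕ), P.FS.encard = k →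
    ∀ (p : Bool × V1 → Pt) (w : Bool × E1 → Pt), IsDrawing P.VS P.ES P.src P.tgt p w →
      P.Tight p w → (crossings P.ES P.src P.tgt p w).encard ≤ (2 * k : ℕ)

/-- One of the two copies has `z` on its outer face. -/
def S_cfg : Prop :=
  ∀ (P : Par), P.Good → ∀ (p : Bool × V1 → Pt) (w : Bool × E1 → Pt),
    IsDrawing P.VS P.ES P.src P.tgt p w → P.Tight p w →
      ∃ (q : V1 → Pt) (ω : Lt → Pt) (Pm Q : ℕ → Set Pt), Cfg P q ω Pm Q

/-- The edge `f` crosses the second segments of the edges `E κ` with its first segment. -/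
def Arms (P : Par) (q : V1 → Pt) (ω : Lt → Pt) : Prop :=
  ∀ κ < P.L, ∃ y, y ∈ openSegment ℝ (ω (Lt.E κ)) (q (V1.r (3 * κ + 2))) ∧
    y ∈ openSegment ℝ (q (V1.r (3 * P.L + 2))) (ω Lt.f)

/-- The bends are used up. -/
def S_arm : Prop :=
  ∀ (P : Par), P.Good → ∀ (q : V1 → Pt) (ω : Lt → Pt) (Pm Q : ℕ → Set Pt), Cfg P q ω Pm Q →
    Arms P q ω

/-- The signs are realized. -/
def S_sep : Prop :=
  ∀ (P : Par), P.Good → ∀ (q : V1 → Pt) (ω : Lt → Pt) (Pm Q : ℕ → Set Pt), Cfg P q ω Pm Q →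
    Arms P q ω → Sep P.n P.L P.sg

/-! ### Completeness -/

/-- The signs with two fences. -/
def fence (m : ℕ) (g : ℕ → ℕ → Bool) (i κ : ℕ) : Bool :=
  if κ = 0 then true else if κ ≤ m then g i (κ - 1) else false

/-- The data of a realization. -/
structure Dat where
  /-- slopes -/
  σ : ℕ → ℝ
  /-- intercepts -/
  c : ℕ → ℝ
  /-- abscissae -/
  x : ℕ → ℝ
  /-- ordinates -/
  y : ℕ → ℝ
  /-- gap -/
  γ : ℝ

/-- The intercept of the line of slope `σ κ` through the point `i`. -/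
def Dat.h (D : Dat) (i κ : ℕ) : ℝ := D.y i - D.σ κ * D.x i

/-- Normal form of a realization. -/
structure NF (P : Par) (D : Dat) : Prop where
  γ0 : 0 < D.γ
  γ1 : D.γ ≤ 1 / 32
  σ_le : ∀ κ < P.L, |D.σ κ| ≤ 1 / 64
  gap : ∀ κ κ', κ < κ' → κ' < P.L → D.σ κ' + D.γ ≤ D.σ κ
  c_le : ∀ κ < P.L, |D.c κ| ≤ D.γ / 16
  x_le : ∀ i < P.n, |D.x i| ≤ 1 / 16
  h_le : ∀ i < P.n, ∀ κ < P.L, |D.h i κ| ≤ D.γ / 16
  sgT : ∀ i < P.n, ∀ κ < P.L, P.sg i κ = true → D.c κ < D.h i κ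
  sgF : ∀ i < P.n, ∀ κ < P.L, P.sg i κ = false → D.h i κ < D.c κ
  genx : ∀ i < P.n, ∀ j < P.n, i ≠ j → D.x i ≠ D.x j
  genh : ∀ i < P.n, ∀ j < P.n, i ≠ j → ∀ κ < P.L, D.h i κ ≠ D.h j κ

/-- Realizations can be normalized. -/
def S_nf : Prop :=
  ∀ (n m W : ℕ) (g : ℕ → ℕ → Bool), OrdReal n m g → ∃ D, NF ⟨n, m + 2, W, fence m g⟩ D

/-- The rim points. -/
noncomputable def rimPt (L : ℕ) (D : Dat) (s : ℕ) : Pt :=
  if s = 0 then (2, 1) else
  if s ≤ 3 * L then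
    (1 + ((D.σ ((s - 1) / 3) + D.c ((s - 1) / 3)) / (1 - D.σ ((s - 1) / 3)) +
        (1 - (((s - 1) % 3 : ℕ) : ℝ)) * (D.γ / 8)),
      (D.σ ((s - 1) / 3) + D.c ((s - 1) / 3)) / (1 - D.σ ((s - 1) / 3)) +
        (1 - (((s - 1) % 3 : ℕ) : ℝ)) * (D.γ / 8)) else
  if s = 3 * L + 1 then (0, -1) else
  if s = 3 * L + 2 then (-1 / 2, -3 / 2) else
  if s = 3 * L + 3 then (-1, -2) else
  if s = 3 * L + 4 then (0, -5 / 2) else
  if s ≤ 6 * L + 4 then
    (3 + 2 * (((s - (3 * L + 5) : ℕ) : ℝ) / (3 * L)), -4 - ((s - (3 * L + 5) : ℕ) : ℝ) / (3 * L)) else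
  if s = 6 * L + 5 then (7, -6) else
  if s = 6 * L + 6 then (5, -2) else
  if s = 6 * L + 7 then (9 / 2, -1) else
  if s = 6 * L + 8 then (4, 0) else (3, 2)

/-- The midpoints of the bundles. -/
noncomputable def midPt (R W : ℕ) (O : Pt) (r : ℕ → Pt) (hh : Bool) (s u : ℕ) : Pt :=
  if hh = true then
    O + (1 / 2 : ℝ) • (r s - O) + (((u : ℝ) + 1) / (8 * (W + 1))) • (r ((s + 1) % R) - O)
  else
    O + (1 / 2 - ((u : ℝ) + 1) / (8 * (W + 1))) • ((r s - O) + (r ((s + 1) % R) - O))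

/-- The positions of the vertices of a wheel with bundles (and of `z` and the points). -/
noncomputable def posOf (R W : ℕ) (z O : Pt) (r pt : ℕ → Pt) : V1 → Pt
  | .z => z
  | .o => O
  | .r s => r s
  | .p i => pt i
  | .m hh s u => midPt R W O r hh s u

/-- The positions of the vertices of the first copy. -/
noncomputable def q0 (P : Par) (D : Dat) : V1 → Pt :=
  posOf P.R P.W (-1, 30) (3, -2) (rimPt P.L D) fun i => (D.x i, D.y i)

/-- The point where the line `y = σ * x + c` meets the line `x + 6 * y + 9 = 0`. -/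
noncomputable def lam (σ c : ℝ) : Pt :=
  (-9 - 6 * ((c - 9 * σ) / (1 + 6 * σ)), (c - 9 * σ) / (1 + 6 * σ))

/-- The bends of the light edges of the first copy. -/
noncomputable def ω0 (D : Dat) : Lt → Pt
  | .E κ => lam (D.σ κ) (D.c κ)
  | .PL i κ => lam (D.σ κ) (D.h i κ)
  | .PR i κ => (1 / 2, D.σ κ / 2 + D.h i κ)
  | .VD i => (D.x i, -1 / 2)
  | .VU i => (D.x i, 1 / 2)
  | .f => (-1 / 2, 20)
  | .g => (20, -16)
  | .z1 => (-1, 14)
  | .z2 => (3, 25)
  | .z3 => (7, 28)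

/-- The triangle which contains the wheel. -/
def KT : Set Pt := {a | a.2 ≤ a.1 - 1 ∧ -5 / 2 - a.1 / 2 ≤ a.2 ∧ a.1 ≤ 4 - a.2 / 2}

/-- The rim points are in convex position around `O`, on a simple closed polygon. -/
structure Fan (R : ℕ) (O : Pt) (r : ℕ → Pt) : Prop where
  three : 3 ≤ R
  inj : ∀ s < R, ∀ t < R, r s = r t → s = t
  face : ∀ s < R, ∃ a b : ℝ, a * ((r s).1 - O.1) + b * ((r s).2 - O.2) = 1 ∧
    a * ((r ((s + 1) % R)).1 - O.1) + b * ((r ((s + 1) % R)).2 - O.2) = 1 ∧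
    ∀ t < R, a * ((r t).1 - O.1) + b * ((r t).2 - O.2) ≤ 1
  seg : ∀ s < R, ∀ t < R, s ≠ t → ∀ x ∈ openSegment ℝ (r s) (r ((s + 1) % R)),
    x ∉ segment ℝ (r t) (r ((t + 1) % R))

/-- The rim of the explicit drawing. -/
def S_rim : Prop :=
  ∀ (P : Par) (D : Dat), P.Good → NF P D →
    Fan P.R (3, -2) (rimPt P.L D) ∧ ∀ s < P.R, rimPt P.L D s ∈ KT

/-- The vertices `o`, `r s`, `m hh s u`. -/
def V1.heavy : V1 → Prop
  | .z => False
  | .p _ => False
  | _ => True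

/-- The straight drawing of the heavy edges: the bend is the midpoint of the edge. -/
noncomputable def hbend (P : Par) (q : V1 → Pt) (e : E1) : Pt :=
  midpoint ℝ (q (P.src1 e)) (q (P.tgt1 e))

/-- The heavy edges. -/
def HES (P : Par) : Set E1 := {e | ∃ hh s u side, s < P.R ∧ u < P.W ∧ e = E1.h hh s u side}

/-- The heavy wheel is drawn without crossings. -/
def S_fan : Prop :=
  ∀ (P : Par) (z O : Pt) (r pt : ℕ → Pt), Fan P.R O r →
    IsDrawing {v | P.vok v ∧ v.heavy} (HES P) P.src1 P.tgt1 (posOf P.R P.W z O r pt)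
      (hbend P (posOf P.R P.W z O r pt)) ∧
    (∀ e ∈ HES P, ∀ f ∈ HES P, e ≠ f → ∀ x, ¬ Meet P.src1 P.tgt1 (posOf P.R P.W z O r pt)
      (hbend P (posOf P.R P.W z O r pt)) e f x) ∧
    ∀ C : Set Pt, Convex ℝ C → O ∈ C → (∀ s < P.R, r s ∈ C) →
      ∀ v, P.vok v → v.heavy → posOf P.R P.W z O r pt v ∈ C

/-- Single light edges and vertices. -/
def S_locA : Prop :=
  ∀ (P : Par) (D : Dat), P.Good → NF P D →
    (∀ u v, P.vok u → P.vok v → u.light → v.light → q0 P D u = q0 P D v → u = v) ∧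
    (∀ e, P.lok e → q0 P D (P.lsrc e) ∉ segment ℝ (ω0 D e) (q0 P D (P.ltgt e)) ∧
      q0 P D (P.ltgt e) ∉ segment ℝ (q0 P D (P.lsrc e)) (ω0 D e)) ∧
    (∀ e, P.lok e → ∀ x ∈ larc P (q0 P D) (ω0 D) e, x ∈ KT →
      ∃ s, (P.lsrc e = V1.r s ∨ P.ltgt e = V1.r s) ∧ x = q0 P D (V1.r s)) ∧
    (∀ e, P.lok e → ∀ x ∈ larc P (q0 P D) (ω0 D) e, x.2 < 30 ∨ x = (-1, 30)) ∧
    (∀ e, P.lok e → ∀ v, P.vok v → v.light → v ≠ P.lsrc e → v ≠ P.ltgt e →
      q0 P D v ∉ larc P (q0 P D) (ω0 D) e)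

/-- The groups of the lines. -/
def Grp.fam : Grp → Prop
  | .E _ => True
  | .P _ _ => True
  | _ => False

/-- The point `x` is an inner point of two segments of `e` and `f` which are not parallel. -/
def Trans (P : Par) (q : V1 → Pt) (ω : Lt → Pt) (e f : Lt) (x : Pt) : Prop :=
  ∃ A A' C C', Piece (q (P.lsrc e)) (ω e) (q (P.ltgt e)) A A' ∧
    Piece (q (P.lsrc f)) (ω f) (q (P.ltgt f)) C C' ∧ x ∈ openSegment ℝ A A' ∧
    x ∈ openSegment ℝ C C' ∧ det (A' - A) (C' - C) ≠ 0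

/-- Pairs of light edges whose groups satisfy `T`. -/
def PairsOK (P : Par) (D : Dat) (T : Grp → Grp → Prop) : Prop :=
  (∀ e e', P.lok e → P.lok e' → e ≠ e' → T e.grp e'.grp → ∀ x ∈ larc P (q0 P D) (ω0 D) e,
    x ∈ larc P (q0 P D) (ω0 D) e' → Com P (q0 P D) e e' x ∨
      (Forced e.grp e'.grp ∧ Trans P (q0 P D) (ω0 D) e e' x)) ∧
  ∀ a b a' b', P.lok a → P.lok b → P.lok a' → P.lok b' → a.grp = a'.grp →
    b.grp = b'.grp → T a.grp b.grp → Forced a.grp b.grp → ∀ x x',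
    x ∈ larc P (q0 P D) (ω0 D) a → x ∈ larc P (q0 P D) (ω0 D) b →
    x' ∈ larc P (q0 P D) (ω0 D) a' → x' ∈ larc P (q0 P D) (ω0 D) b' → x = x'

/-- Two lines. -/
def S_locB : Prop :=
  ∀ (P : Par) (D : Dat), P.Good → NF P D → PairsOK P D fun A B => A.fam ∧ B.fam

/-- A line and another edge. -/
def S_locC : Prop :=
  ∀ (P : Par) (D : Dat), P.Good → NF P D → PairsOK P D fun A B => ¬ A.fam ∧ B.fam

/-- Two other edges. -/
def S_locD : Prop :=
  ∀ (P : Par) (D : Dat), P.Good → NF P D → PairsOK P D fun A B => ¬ A.fam ∧ ¬ B.fam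

/-- The two copies together. -/
def S_asm : Prop :=
  ∀ (P : Par) (D : Dat), P.Good → NF P D → ∃ (p : Bool × V1 → Pt) (w : Bool × E1 → Pt),
    IsDrawing P.VS P.ES P.src P.tgt p w ∧ P.Tight p w

/-! ### The encoding -/

/-- The parameters of a matrix. -/
def parOf (M : List (List Bool)) (k : ℕ) : Par :=
  ⟨M.length, wid M + 2, 4 * k + 1, fence (wid M) (ent M)⟩

/-- The instance of a matrix. -/
def S_enc : Prop :=
  ∃ (red : List (List Bool) → Inst) (kk : List (List Bool) → ℕ), Poly red ∧ ∀ M,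
    (parOf M (kk M)).FS.encard = kk M ∧ IsInst (red M) ∧
    (CR2 (red M) ↔ Drawable (parOf M (kk M)).VS (parOf M (kk M)).ES (parOf M (kk M)).src
      (parOf M (kk M)).tgt (2 * kk M))

theorem good_parOf (M : List (List Bool)) (k : ℕ) : (parOf M k).Good where
  two := by simp [parOf]
  one := by simp [parOf]
  top := fun i => by simp [parOf, fence]
  bot := fun i => by simp [parOf, fence]

theorem sep_of_fence {n m : ℕ} {g : ℕ → ℕ → Bool} (h : Sep n (m + 2) (fence m g)) : Sep n m g := by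
  obtain ⟨q, hq⟩ := h
  refine ⟨q, fun j hj => ?_⟩
  obtain ⟨a, b, c, h⟩ := hq (j + 1) (by omega)
  refine ⟨a, b, c, fun i hi => ?_⟩
  have e : fence m g i (j + 1) = g i j := by
    unfold fence
    rw [if_neg (by omega), if_pos (by omega), Nat.add_sub_cancel]
  have := h i hi
  rwa [e] at this

/-- The assembly. -/
theorem complete_of (hmem : S_mem) (hsrc : S_src) (henc : S_enc) (hnf : S_nf) (hasm : S_asm)
    (hcount : S_count) (htight : S_tight) (hcfg : S_cfg) (harm : S_arm) (hsep : S_sep) :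
    ERComplete (lang fun G : Inst => IsInst G ∧ CR2 G) := by
  refine ⟨hmem, ?_⟩
  obtain ⟨om, hom, h1⟩ := hsrc
  obtain ⟨red, kk, hred, h2⟩ := henc
  have k : Poly (fun S : List Con => red (om S)) := Poly.comp (g := red) (f := om) hred hom
  refine ERHard.of_sys (f := fun S => red (om S)) k fun S => ?_
  obtain ⟨k1, k2, k3⟩ := h2 (om S)
  have hg := good_parOf (om S) (kk (om S))
  constructor
  · intro hS
    obtain ⟨D, hD⟩ := hnf _ _ (4 * kk (om S) + 1) _ ((h1 S).1 hS)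
    obtain ⟨p, w, k4, k5⟩ := hasm (parOf (om S) (kk (om S))) D hg hD
    exact ⟨k2, k3.2 ⟨p, w, k4, hcount _ _ k1 p w k4 k5⟩⟩
  · rintro ⟨-, hS⟩
    obtain ⟨p, w, k4, k5⟩ := k3.1 hS
    have k6 := htight _ _ k1 (by simp [parOf]) p w k4 k5
    obtain ⟨q, ω, Pm, Q, k7⟩ := hcfg _ hg p w k4 k6
    exact (h1 S).2 (sep_of_fence (hsep _ hg q ω Pm Q k7 (harm _ hg q ω Pm Q k7)))

end Pool.Agent.H676Z.CR
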